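import Pool.Agent.helper23.FFI.Defs

set_option autoImplicit false

open Pool.Agent.helper44.FirstFit Pool.Agent.helper23.FFI Nat

/-- The poset `R8` (`i < j` iff `j ≥ i + 2` on `{0, …, 7}`) has width `2`, First-Fit produces at least `(w + 1)! / 2`
nonempty chains on some `R8`-free poset of width `w`, for every `w ≥ 1`, and this is superexponential. -/
theorem Pool.Agent.Results.MP_5b147e_co.FirstFitFactorial.result :
    IsWidth R8 2 ∧ (∀ w : ℕ, 1 ≤ w → FFge w R8 ((w + 1)! / 2)) ∧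
      ∀ c : ℝ, ∃ w : ℕ, 1 ≤ w ∧ ∃ m : ℕ, c ^ w < m ∧ FFge w R8 m := by
  refine ⟨width_R8, ffge_factorial, fun c => ?_⟩
  obtain ⟨w, hw, h⟩ := superexp c
  exact ⟨w, hw, _, h, ffge_factorial w hw⟩
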